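import Pool.Agent.N742.FK.Stm

/-!
# FK/CNT: many monic irreducible polynomials of degree `r` (helper519)
-/

set_option autoImplicit false

namespace Pool.Agent.N742.FK

open Polynomial UniqueFactorizationMonoid

lemma cnt_finite (F : Type) [Field F] [Fintype F] (r : ℕ) : (irr F r).Finite := by
  classical
  have h : irr F r ⊆ Set.range (fun c : Fin (r + 1) → F => ∑ i : Fin (r + 1), monomial (i : ℕ) (c i)) := by
    rintro P ⟨-, -, h⟩
    refine ⟨fun i => P.coeff i, ?_⟩
    have h1 := P.as_sum_range' (r + 1) (by omega)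
    rw [h1, Finset.sum_range]
    simp only [finsetSum_coeff, coeff_monomial]
    refine Finset.sum_congr rfl fun i _ => ?_
    congr 1
    rw [Finset.sum_eq_single i]
    · simp
    · intro b _ hb
      rw [if_neg]
      exact fun h => hb (Fin.ext h)
    · simp
  exact (Set.finite_range _).subset h

lemma cnt_coprime {F : Type} [Field F] {P Q : F[X]} (hP : P.Monic ∧ Irreducible P)
    (hQ : Q.Monic ∧ Irreducible Q) (h : P ≠ Q) : IsCoprime P Q := by
  rw [hP.2.coprime_iff_not_dvd]
  intro hd
  exact h (eq_of_monic_of_associated hP.1 hQ.1 (hP.2.associated_of_dvd hQ.2 hd))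

lemma cnt_le (F : Type) [Field F] [Fintype F] (d : ℕ) (hd : 1 ≤ d) :
    d * (irr F d).ncard ≤ Fintype.card F ^ d := by
  have hfin := cnt_finite F d
  have hq : 1 < Fintype.card F := Fintype.one_lt_card
  have h1 : (∏ P ∈ hfin.toFinset, P) ∣ (X ^ (Fintype.card F) ^ d - X : F[X]) := by
    apply Finset.prod_dvd_of_coprime
    · intro P hP Q hQ hne
      have hP' := hfin.mem_toFinset.1 (Finset.mem_coe.1 hP)
      have hQ' := hfin.mem_toFinset.1 (Finset.mem_coe.1 hQ)
      exact cnt_coprime ⟨hP'.1, hP'.2.1⟩ ⟨hQ'.1, hQ'.2.1⟩ hne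
    · intro P hP
      have hP' := hfin.mem_toFinset.1 hP
      rw [← Nat.card_eq_fintype_card, ← hP'.2.1.natDegree_dvd_iff_dvd_X_pow_card_pow_sub_X, hP'.2.2]
  have h2 : (X ^ (Fintype.card F) ^ d - X : F[X]) ≠ 0 :=
    FiniteField.X_pow_card_pow_sub_X_ne_zero F (by omega) hq
  have h3 := natDegree_le_of_dvd h1 h2
  rw [FiniteField.X_pow_card_pow_sub_X_natDegree_eq F (by omega) hq,
    natDegree_prod_of_monic _ _ (fun P hP => (hfin.mem_toFinset.1 hP).1),
    Finset.sum_congr rfl (fun P hP => (hfin.mem_toFinset.1 hP).2.2), Finset.sum_const,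
    smul_eq_mul, ← Set.ncard_eq_toFinset_card _ hfin] at h3
  rw [mul_comm]
  exact h3

lemma cnt_sum (q : ℕ) (hq : 3 ≤ q) (r : ℕ) (hr : 1 ≤ r) :
    2 * ∑ d ∈ Finset.range r, (if d = 0 then 0 else q ^ d) ≤ q ^ r := by
  induction r with
  | zero => omega
  | succ r ih =>
    rw [Finset.sum_range_succ]
    by_cases h : r = 0
    · subst h
      simp
    · have h1 := ih (by omega)
      rw [if_neg h, pow_succ]
      have h2 : q ^ r * 3 ≤ q ^ r * q := Nat.mul_le_mul_left _ hq
      omega

/-- **CNT** -/
theorem cnt : CNT := by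
  classical
  intro F _ _ r hr hq
  refine ⟨cnt_finite F r, ?_⟩
  have hq1 : 1 < Fintype.card F := Fintype.one_lt_card
  set q := Fintype.card F with hqdef
  set A : F[X] := X ^ q ^ r - X with hA
  have hA0 : A ≠ 0 := FiniteField.X_pow_card_pow_sub_X_ne_zero F (by omega) hq1
  have hAdeg : A.natDegree = q ^ r := FiniteField.X_pow_card_pow_sub_X_natDegree_eq F (by omega) hq1
  have hAsep : A.Separable := by
    obtain ⟨p, hp⟩ := CharP.exists F
    have : CharP F p := hp
    have hpq : p ∣ q ^ r := by
      apply dvd_pow _ (by omega)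
      rw [← CharP.cast_eq_zero_iff F p, hqdef]
      exact FiniteField.cast_card_eq_zero F
    exact galois_poly_separable p _ hpq
  set S := normalizedFactors A with hS
  have hnd : S.Nodup := (squarefree_iff_nodup_normalizedFactors hA0).1 hAsep.squarefree
  have hmon : ∀ P ∈ S, P.Monic := fun P hP => by
    have h0 : P ≠ 0 := (irreducible_of_normalized_factor P hP).ne_zero
    have h1 := normalize_normalized_factor P hP
    rw [← h1]
    exact monic_normalize h0
  have hirr : ∀ P ∈ S, Irreducible P := fun P hP => irreducible_of_normalized_factor P hP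
  have hdvd : ∀ P ∈ S, P.natDegree ∣ r := fun P hP => by
    rw [(hirr P hP).natDegree_dvd_iff_dvd_X_pow_card_pow_sub_X, Nat.card_eq_fintype_card]
    exact dvd_of_mem_normalizedFactors hP
  have hsum : (S.map natDegree).sum = q ^ r := by
    rw [← natDegree_multiset_prod_of_monic S hmon, prod_normalizedFactors_eq hA0, ← hAdeg]
    exact natDegree_eq_of_degree_eq degree_normalize
  have hT : ∑ P ∈ S.toFinset, P.natDegree = q ^ r := by
    rw [← hsum, Finset.sum_multiset_map_count]
    refine Finset.sum_congr rfl fun P hP => ?_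
    rw [Multiset.count_eq_one_of_mem hnd (Multiset.mem_toFinset.1 hP), one_smul]
  have hfib : ∑ d ∈ Finset.range (r + 1), ∑ P ∈ S.toFinset.filter (fun P => P.natDegree = d),
      P.natDegree = q ^ r := by
    rw [← hT]
    apply Finset.sum_fiberwise_of_maps_to
    intro P hP
    rw [Finset.mem_range]
    have := Nat.le_of_dvd (by omega) (hdvd P (Multiset.mem_toFinset.1 hP))
    omega
  have hin : ∀ d, ∑ P ∈ S.toFinset.filter (fun P => P.natDegree = d), P.natDegree ≤
      d * (irr F d).ncard := by
    intro d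
    rw [Finset.sum_congr rfl (g := fun _ => d) (fun P hP => (Finset.mem_filter.1 hP).2),
      Finset.sum_const, smul_eq_mul, mul_comm]
    apply Nat.mul_le_mul_left
    rw [← Set.ncard_coe_finset]
    apply Set.ncard_le_ncard _ (cnt_finite F d)
    intro P hP
    rw [Finset.mem_coe, Finset.mem_filter, Multiset.mem_toFinset] at hP
    exact ⟨hmon P hP.1, hirr P hP.1, hP.2⟩
  rw [Finset.sum_range_succ] at hfib
  have h1 : ∑ d ∈ Finset.range r, ∑ P ∈ S.toFinset.filter (fun P => P.natDegree = d),
      P.natDegree ≤ ∑ d ∈ Finset.range r, (if d = 0 then 0 else q ^ d) := by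
    refine Finset.sum_le_sum fun d _ => ?_
    by_cases h : d = 0
    · rw [if_pos h]
      exact (hin d).trans (by rw [h]; simp)
    · rw [if_neg h]
      exact (hin d).trans (cnt_le F d (by omega))
  have h2 := cnt_sum q hq r hr
  have h3 := hin r
  have h4 : 2 * r * (irr F r).ncard = 2 * (r * (irr F r).ncard) := by ring
  rw [h4]
  omega

end Pool.Agent.N742.FK
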