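import Pool.Agent.N742.FK.Stm

/-!
# Covering a finite commutative group by translates of a set (helper499)
-/

set_option autoImplicit false

namespace Pool.Agent.N742.FK

open Finset

theorem cov_aux {G : Type} [CommGroup G] [Fintype G] [DecidableEq G] (D : Finset G) (m : ℕ) :
    ∃ T : Finset G, T.card ≤ m ∧ ((univ.filter fun g : G => ∀ t ∈ T, t * g ∉ D).card : ℝ) ≤
      Fintype.card G * (1 - (D.card : ℝ) / Fintype.card G) ^ m := by
  have hN : (0 : ℝ) < Fintype.card G := by exact_mod_cast Fintype.card_pos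
  have hdl : 0 ≤ 1 - (D.card : ℝ) / Fintype.card G := by
    rw [sub_nonneg, div_le_one hN]
    exact_mod_cast card_le_univ D
  induction m with
  | zero =>
    refine ⟨∅, le_rfl, ?_⟩
    rw [pow_zero, mul_one]
    exact_mod_cast card_le_univ _
  | succ m ih =>
    obtain ⟨T, hT, hU⟩ := ih
    obtain ⟨U, hUd⟩ : ∃ U : Finset G, U = univ.filter fun g : G => ∀ t ∈ T, t * g ∉ D := ⟨_, rfl⟩
    rw [← hUd] at hU
    have h1 : ∑ t : G, ((U.filter fun g => t * g ∈ D).card : ℝ) = U.card * D.card := by
      have h2 : ∑ t : G, (U.filter fun g => t * g ∈ D).card = U.card * D.card := by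
        simp only [card_filter]
        rw [sum_comm]
        have h3 : ∀ g ∈ U, ∑ t : G, (if t * g ∈ D then 1 else 0) = D.card := by
          intro g _
          rw [← card_filter]
          apply card_bij (fun t _ => t * g)
          · intro t ht
            exact (mem_filter.1 ht).2
          · intro t _ t' _ h
            exact mul_right_cancel h
          · intro d hd
            exact ⟨d * g⁻¹, mem_filter.2 ⟨mem_univ _, by rwa [inv_mul_cancel_right]⟩,
              inv_mul_cancel_right d g⟩
        rw [sum_congr rfl h3, sum_const, smul_eq_mul]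
      exact_mod_cast h2
    obtain ⟨t, -, ht⟩ : ∃ t ∈ (univ : Finset G), (U.card * D.card / Fintype.card G : ℝ) ≤
        ((U.filter fun g => t * g ∈ D).card : ℝ) := by
      apply exists_le_of_sum_le univ_nonempty
      rw [h1, sum_const, card_univ, nsmul_eq_mul]
      apply le_of_eq
      field_simp
    refine ⟨insert t T, (card_insert_le _ _).trans (by omega), ?_⟩
    have h2 : (univ.filter fun g : G => ∀ t' ∈ insert t T, t' * g ∉ D) =
        U.filter fun g => ¬ t * g ∈ D := by
      ext g
      rw [hUd, mem_filter, mem_filter, mem_filter]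
      constructor
      · rintro ⟨-, h⟩
        exact ⟨⟨mem_univ _, fun t' ht' => h t' (mem_insert_of_mem ht')⟩, h t (mem_insert_self _ _)⟩
      · rintro ⟨⟨-, h⟩, h'⟩
        refine ⟨mem_univ _, fun t' ht' => ?_⟩
        rcases mem_insert.1 ht' with rfl | h3
        · exact h'
        · exact h t' h3
    have h3 : ((U.filter fun g => t * g ∈ D).card : ℝ) + (U.filter fun g => ¬ t * g ∈ D).card =
        U.card := by exact_mod_cast card_filter_add_card_filter_not (s := U) (fun g => t * g ∈ D)
    rw [h2]
    calc ((U.filter fun g => ¬ t * g ∈ D).card : ℝ) ≤ U.card * (1 - (D.card : ℝ) / Fintype.card G) := by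
          have h4 : (U.card : ℝ) * (1 - (D.card : ℝ) / Fintype.card G) =
              U.card - U.card * D.card / Fintype.card G := by ring
          rw [h4]
          linarith
      _ ≤ (Fintype.card G * (1 - (D.card : ℝ) / Fintype.card G) ^ m) *
          (1 - (D.card : ℝ) / Fintype.card G) := mul_le_mul_of_nonneg_right hU hdl
      _ = _ := by rw [pow_succ, mul_assoc]

theorem cov : COV := by
  intro G _ _ D hD
  classical
  have hN : (0 : ℝ) < Fintype.card G := by exact_mod_cast Fintype.card_pos
  have hN1 : (1 : ℝ) ≤ Fintype.card G := by exact_mod_cast Fintype.card_pos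
  have hD0 : (0 : ℝ) < D.card := by exact_mod_cast hD.card_pos
  have hdl : 0 ≤ 1 - (D.card : ℝ) / Fintype.card G := by
    rw [sub_nonneg, div_le_one hN]
    exact_mod_cast card_le_univ D
  obtain ⟨x, hx⟩ : ∃ x : ℝ, x = (Fintype.card G : ℝ) / D.card * Real.log (Fintype.card G) := ⟨_, rfl⟩
  have hx0 : 0 ≤ x := by
    rw [hx]
    exact mul_nonneg (by positivity) (Real.log_nonneg hN1)
  obtain ⟨T, hT1, hT2⟩ := cov_aux D (⌊x⌋₊ + 1)
  refine ⟨T, ?_, ?_⟩
  · have h1 : (univ.filter fun g : G => ∀ t ∈ T, t * g ∉ D).card = 0 := by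
      by_contra hne
      have h2 : (1 : ℝ) ≤ (univ.filter fun g : G => ∀ t ∈ T, t * g ∉ D).card := by
        exact_mod_cast Nat.one_le_iff_ne_zero.2 hne
      have h3 : (1 - (D.card : ℝ) / Fintype.card G) ^ (⌊x⌋₊ + 1) ≤
          Real.exp (-((D.card : ℝ) / Fintype.card G) * ((⌊x⌋₊ + 1 : ℕ) : ℝ)) := by
        rw [Real.exp_mul, Real.rpow_natCast]
        exact pow_le_pow_left₀ hdl (Real.one_sub_le_exp_neg _) _
      have h4 : Real.log (Fintype.card G) < (D.card : ℝ) / Fintype.card G * ((⌊x⌋₊ + 1 : ℕ) : ℝ) := by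
        have h5 : x < ((⌊x⌋₊ + 1 : ℕ) : ℝ) := by
          push_cast
          exact Nat.lt_floor_add_one x
        have h6 : Real.log (Fintype.card G) = (D.card : ℝ) / Fintype.card G * x := by
          rw [hx, ← mul_assoc, div_mul_div_cancel₀ hN.ne', div_self hD0.ne', one_mul]
        rw [h6]
        exact mul_lt_mul_of_pos_left h5 (div_pos hD0 hN)
      have h5 : Real.exp (-((D.card : ℝ) / Fintype.card G) * ((⌊x⌋₊ + 1 : ℕ) : ℝ)) <
          (Fintype.card G : ℝ)⁻¹ := by
        rw [← Real.exp_log hN, ← Real.exp_neg, Real.exp_log hN]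
        apply Real.exp_lt_exp.2
        linarith
      have h6 : (Fintype.card G : ℝ) * (1 - (D.card : ℝ) / Fintype.card G) ^ (⌊x⌋₊ + 1) < 1 := by
        calc _ < (Fintype.card G : ℝ) * (Fintype.card G : ℝ)⁻¹ :=
              mul_lt_mul_of_pos_left (h3.trans_lt h5) hN
          _ = 1 := mul_inv_cancel₀ hN.ne'
      linarith
    intro g
    by_contra hcon
    push Not at hcon
    rw [card_eq_zero, filter_eq_empty_iff] at h1
    exact h1 (mem_univ g) hcon
  · rw [← hx]
    calc (T.card : ℝ) ≤ ((⌊x⌋₊ + 1 : ℕ) : ℝ) := by exact_mod_cast hT1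
      _ ≤ x + 1 := by
        push_cast
        linarith [Nat.floor_le hx0]

end Pool.Agent.N742.FK
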