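import Pool.Agent.N742.FK.Stm

set_option autoImplicit false

/-!
# FK, DIM: polynomials of small degree with high multiplicity at given points
-/

namespace Pool.Agent.N742.FK

open MvPolynomial

section dimaux

/-- the exponents of degree at most `D` -/
noncomputable def dimA (n D : ℕ) : Finset (Fin n →₀ ℕ) :=
  (Finset.range (D + 1)).biUnion fun k => (Finset.univ : Finset (Fin n)).finsuppAntidiag k

lemma dim_mem {n D : ℕ} {x : Fin n →₀ ℕ} : x ∈ dimA n D ↔ ∑ i, x i ≤ D := by
  unfold dimA
  rw [Finset.mem_biUnion]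
  constructor
  · rintro ⟨k, hk, hx⟩
    rw [Finset.mem_range] at hk
    rw [Finset.mem_finsuppAntidiag] at hx
    have h1 : ∑ i, x i = k := hx.1
    omega
  · intro h
    exact ⟨∑ i, x i, Finset.mem_range.2 (by omega), by
      rw [Finset.mem_finsuppAntidiag]; exact ⟨rfl, Finset.subset_univ _⟩⟩

lemma dim_card (n D : ℕ) : (dimA n D).card = (D + n).choose n := by
  unfold dimA
  rw [Finset.card_biUnion]
  · rw [← Nat.sum_range_multichoose]
    refine Finset.sum_congr rfl fun k _ => ?_
    rw [Finset.card_finsuppAntidiag_nat_eq_multichoose, Finset.card_univ, Fintype.card_fin]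
  · intro k _ l _ hkl
    rw [Function.onFun, Finset.disjoint_left]
    intro x hx hy
    rw [Finset.mem_finsuppAntidiag] at hx hy
    exact hkl (hx.1.symm.trans hy.1)

variable (K : Type) [Field K] (n d : ℕ)

/-- the polynomial with given coefficients -/
noncomputable def dimP : (dimA n d → K) →ₗ[K] MvPolynomial (Fin n) K where
  toFun c := ∑ x : dimA n d, monomial x.1 (c x)
  map_add' c c' := by
    rw [← Finset.sum_add_distrib]
    refine Finset.sum_congr rfl fun x _ => ?_
    rw [Pi.add_apply, map_add]
  map_smul' r c := by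
    rw [RingHom.id_apply, Finset.smul_sum]
    refine Finset.sum_congr rfl fun x _ => ?_
    rw [Pi.smul_apply, smul_monomial]

lemma dimP_apply (c : dimA n d → K) : dimP K n d c = ∑ x : dimA n d, monomial x.1 (c x) := rfl

lemma dimP_coeff (c : dimA n d → K) (x : dimA n d) : coeff x.1 (dimP K n d c) = c x := by
  classical
  rw [dimP_apply, coeff_sum, Finset.sum_eq_single x]
  · rw [coeff_monomial, if_pos rfl]
  · intro y _ hy
    rw [coeff_monomial, if_neg fun h => hy (Subtype.ext h)]
  · intro h
    exact absurd (Finset.mem_univ x) h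

lemma dimP_deg (c : dimA n d → K) : (dimP K n d c).totalDegree ≤ d := by
  rw [← mem_restrictTotalDegree, dimP_apply]
  refine Submodule.sum_mem _ fun x _ => ?_
  rw [restrictTotalDegree, monomial_mem_restrictSupport]
  left
  have h := dim_mem.1 x.2
  show (x.1.sum fun _ e => e) ≤ d
  rw [Finsupp.sum_fintype _ _ (fun _ => rfl)]
  exact h

variable {K n}

/-- translation -/
noncomputable def dimT (a : Fin n → K) : MvPolynomial (Fin n) K →ₐ[K] MvPolynomial (Fin n) K :=
  aeval fun i => X i + C (a i)

/-- translation back -/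
noncomputable def dimS (a : Fin n → K) : MvPolynomial (Fin n) K →ₐ[K] MvPolynomial (Fin n) K :=
  aeval fun i => X i - C (a i)

lemma dim_ST (a : Fin n → K) (F : MvPolynomial (Fin n) K) : dimS a (dimT a F) = F := by
  have h : (dimS a).comp (dimT a) = AlgHom.id K _ := by
    apply algHom_ext
    intro i
    rw [AlgHom.comp_apply, AlgHom.id_apply]
    unfold dimT dimS
    rw [aeval_X, map_add, aeval_X]
    have h1 : (aeval fun i => X i - C (a i)) (C (a i) : MvPolynomial (Fin n) K) =
        (C (a i) : MvPolynomial (Fin n) K) := by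
      rw [aeval_C]
      rfl
    rw [h1, sub_add_cancel]
  exact congrArg (fun f => f F) h

lemma dim_map (a : Fin n → K) :
    (idealOfVars (Fin n) K).map (dimS a).toRingHom = mId K n a := by
  rw [idealOfVars, Ideal.map_span, mId, ← Set.range_comp]
  congr 1
  apply congrArg
  funext i
  show dimS a (X i) = X i - C (a i)
  unfold dimS
  rw [aeval_X]

end dimaux

theorem dim : DIM := by
  intro K _ _ n m d S hlt
  classical
  let L : (dimA n d → K) →ₗ[K] (S × dimA n m → K) :=
    LinearMap.pi fun p => (lcoeff K p.2.1) ∘ₗ (dimT p.1.1).toLinearMap ∘ₗ (dimP K n d)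
  have hL : LinearMap.ker L ≠ ⊥ := by
    apply LinearMap.ker_ne_bot_of_finrank_lt
    rw [Module.finrank_pi, Module.finrank_pi, Fintype.card_prod, Fintype.card_coe,
      Fintype.card_coe, Fintype.card_coe, dim_card, dim_card]
    exact hlt
  obtain ⟨c, hc, hc0⟩ := Submodule.exists_mem_ne_zero_of_ne_bot hL
  rw [LinearMap.mem_ker] at hc
  refine ⟨dimP K n d c, ?_, dimP_deg K n d c, fun a ha => ?_⟩
  · intro h0
    apply hc0
    funext x
    rw [← dimP_coeff K n d c x, h0, coeff_zero]
    rfl
  · have h1 : dimT a (dimP K n d c) ∈ idealOfVars (Fin n) K ^ (m + 1) := by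
      rw [mem_pow_idealOfVars_iff']
      intro x hx
      have hxm : x ∈ dimA n m := by
        rw [dim_mem]
        have h2 : Finsupp.degree x = ∑ i, x i := by
          rw [Finsupp.degree_eq_sum]
        omega
      exact congrFun hc (⟨a, ha⟩, ⟨x, hxm⟩)
    have h2 := Ideal.mem_map_of_mem (dimS a).toRingHom h1
    rw [Ideal.map_pow, dim_map] at h2
    have h3 : (dimS a).toRingHom (dimT a (dimP K n d c)) = dimP K n d c := dim_ST a _
    rwa [h3] at h2

end Pool.Agent.N742.FK
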