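import Pool.Agent.N742.FK.Stm

set_option autoImplicit false

/-!
# Project FK: sets which contain a line in each direction of a set `D` (helper300)
-/

namespace Pool.Agent.N742.FK

/-- the statement for a given extension field -/
theorem dir_aux (hK : KAK) (hC : COV) (K L : Type) [Field K] [Fintype K] [Field L] [Fintype L] [Algebra K L]
    (n : ℕ) (e : L ≃ₗ[K] (Fin n → K)) (D S : Finset (Fin n → K)) (hD : D.Nonempty) (hD0 : (0 : Fin n → K) ∉ D)
    (hS : ∀ w ∈ D, ∃ a : Fin n → K, ∀ s : K, a + s • w ∈ S) (hL : Fintype.card L = Fintype.card K ^ n) :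
    (Fintype.card K : ℝ) ^ n ≤ 2 ^ n * S.card *
      ((Fintype.card K : ℝ) ^ n / D.card * (n * Real.log (Fintype.card K)) + 1) := by
  classical
  set D' : Finset Lˣ := Finset.univ.filter fun u : Lˣ => e (u : L) ∈ D with hD'
  have hDD : D ⊆ D'.image fun u : Lˣ => e (u : L) := by
    intro w hw
    have hw0 : e.symm w ≠ 0 := by
      intro h
      have : w = 0 := by
        rw [← e.apply_symm_apply w, h, map_zero]
      exact hD0 (this ▸ hw)
    rw [Finset.mem_image]
    refine ⟨Units.mk0 _ hw0, ?_, ?_⟩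
    · rw [hD', Finset.mem_filter]
      refine ⟨Finset.mem_univ _, ?_⟩
      rw [Units.val_mk0, e.apply_symm_apply]
      exact hw
    · rw [Units.val_mk0, e.apply_symm_apply]
  have hcard : D.card ≤ D'.card := (Finset.card_le_card hDD).trans Finset.card_image_le
  have hDpos : 0 < D.card := hD.card_pos
  have hD'ne : D'.Nonempty := Finset.card_pos.1 (lt_of_lt_of_le hDpos hcard)
  obtain ⟨T, hT1, hT2⟩ := hC Lˣ D' hD'ne
  set S' : Finset (Fin n → K) := T.biUnion fun t => S.image fun s => e (((t⁻¹ : Lˣ) : L) * e.symm s) with hS'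
  have hS'card : S'.card ≤ T.card * S.card := by
    refine Finset.card_biUnion_le_card_mul _ _ _ fun t _ => Finset.card_image_le
  have hmem : ∀ t ∈ T, ∀ s ∈ S, e (((t⁻¹ : Lˣ) : L) * e.symm s) ∈ S' := by
    intro t ht s hs
    rw [hS', Finset.mem_biUnion]
    exact ⟨t, ht, Finset.mem_image_of_mem _ hs⟩
  have hline : ∀ w : Fin n → K, ∃ a : Fin n → K, ∀ s : K, a + s • w ∈ S' := by
    intro w
    by_cases hw : w = 0
    · subst hw
      obtain ⟨w1, hw1⟩ := hD
      obtain ⟨a1, ha1⟩ := hS w1 hw1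
      obtain ⟨t, ht, -⟩ := hT1 1
      refine ⟨e (((t⁻¹ : Lˣ) : L) * e.symm (a1 + (0 : K) • w1)), fun s => ?_⟩
      rw [smul_zero, add_zero]
      exact hmem t ht _ (ha1 0)
    · have hw0 : e.symm w ≠ 0 := by
        intro h
        apply hw
        rw [← e.apply_symm_apply w, h, map_zero]
      obtain ⟨t, ht, htg⟩ := hT1 (Units.mk0 _ hw0)
      rw [hD', Finset.mem_filter] at htg
      obtain ⟨a1, ha1⟩ := hS _ htg.2
      refine ⟨e (((t⁻¹ : Lˣ) : L) * e.symm a1), fun s => ?_⟩
      have h1 := hmem t ht _ (ha1 s)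
      have h2 : e (((t⁻¹ : Lˣ) : L) * e.symm a1) + s • w =
          e (((t⁻¹ : Lˣ) : L) * e.symm (a1 + s • e ((t * Units.mk0 _ hw0 : Lˣ) : L))) := by
        rw [map_add, map_smul, e.symm_apply_apply, mul_add, map_add, Units.val_mul, Units.val_mk0,
          mul_smul_comm, ← mul_assoc, Units.inv_mul, one_mul, map_smul, e.apply_symm_apply]
      rw [h2]
      exact h1
  have hq := hK K n S' hline
  have hG : Fintype.card Lˣ = Fintype.card L - 1 := Fintype.card_units L
  have hG1 : 1 ≤ Fintype.card Lˣ := Fintype.card_pos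
  have hq1 : 1 ≤ Fintype.card K := Fintype.card_pos
  have hGle : (Fintype.card Lˣ : ℝ) ≤ (Fintype.card K : ℝ) ^ n := by
    have : Fintype.card Lˣ ≤ Fintype.card K ^ n := by omega
    exact_mod_cast this
  have hlog : Real.log (Fintype.card Lˣ) ≤ n * Real.log (Fintype.card K) := by
    rw [← Real.log_pow]
    exact Real.log_le_log (by exact_mod_cast hG1) hGle
  have hlog0 : 0 ≤ Real.log (Fintype.card Lˣ) := Real.log_natCast_nonneg _
  have hDr : (0 : ℝ) < D.card := by exact_mod_cast hDpos
  have hDr' : (D.card : ℝ) ≤ D'.card := by exact_mod_cast hcard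
  have hT3 : (T.card : ℝ) ≤ (Fintype.card K : ℝ) ^ n / D.card * (n * Real.log (Fintype.card K)) + 1 := by
    refine hT2.trans (add_le_add ?_ le_rfl)
    apply mul_le_mul _ hlog hlog0 (by positivity)
    exact div_le_div₀ (by positivity) hGle hDr hDr'
  have hq' : (Fintype.card K : ℝ) ^ n ≤ 2 ^ n * S'.card := by exact_mod_cast hq
  have hS'r : (S'.card : ℝ) ≤ T.card * S.card := by exact_mod_cast hS'card
  calc (Fintype.card K : ℝ) ^ n ≤ 2 ^ n * S'.card := hq'
    _ ≤ 2 ^ n * (T.card * S.card) := mul_le_mul_of_nonneg_left hS'r (by positivity)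
    _ = 2 ^ n * S.card * T.card := by ring
    _ ≤ _ := mul_le_mul_of_nonneg_left hT3 (by positivity)

theorem dir (hK : KAK) (hC : COV) : DIR := by
  classical
  intro K _ _ n D S hn hD hD0 hS
  obtain ⟨p, hp⟩ := CharP.exists K
  have hpp : Fact p.Prime := ⟨CharP.char_is_prime K p⟩
  have : NeZero n := ⟨by omega⟩
  have : Fintype (FiniteField.Extension K p n) := Fintype.ofFinite _
  have h1 : Module.finrank K (FiniteField.Extension K p n) = n := FiniteField.finrank_extension K p n
  have e : FiniteField.Extension K p n ≃ₗ[K] (Fin n → K) :=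
    LinearEquiv.ofFinrankEq _ _ (by rw [h1, Module.finrank_fin_fun])
  apply dir_aux hK hC K (FiniteField.Extension K p n) n e D S hD hD0 hS
  rw [Fintype.card_congr e.toEquiv, Fintype.card_fun, Fintype.card_fin]

end Pool.Agent.N742.FK
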