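import Mathlib

set_option autoImplicit false

/-!
# Covering by residue classes in `F_q[t]`: definitions and statements of the pieces (helper742)
-/

namespace Pool.Agent.N742.FK

open Polynomial

/-- the ideal `(X_1 - w_1, ..., X_n - w_n)` of the point `w` -/
noncomputable def mId (K : Type) [Field K] (n : ℕ) (w : Fin n → K) : Ideal (MvPolynomial (Fin n) K) :=
  Ideal.span (Set.range fun i : Fin n => MvPolynomial.X i - MvPolynomial.C (w i))

/-- a polynomial in one variable of degree `< |K| k` which is divisible, modulo `I`, by `(X - c)^k` for all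
`c ∈ K`, has all its coefficients in `I` -/
def POLY : Prop := ∀ (K R : Type) [Field K] [Fintype K] [CommRing R] [Algebra K R] (I : Ideal R) (k : ℕ)
  (P : R[X]), P.natDegree < Fintype.card K * k →
  (∀ c : K, P ∈ Ideal.span {(X - C (algebraMap K R c)) ^ k} ⊔ I.map C) → ∀ i, P.coeff i ∈ I

/-- Schwartz-Zippel with multiplicities -/
def SZ : Prop := ∀ (K : Type) [Field K] [Fintype K] (n l : ℕ) (G : MvPolynomial (Fin n) K),
  (∀ w : Fin n → K, G ∈ mId K n w ^ l) →
  G.totalDegree + Fintype.card K * n < Fintype.card K * l → G = 0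

/-- high multiplicity on a whole line gives multiplicity of the top homogeneous part in the direction -/
def LINE : Prop := ∀ (K : Type) [Field K] [Fintype K] (n d k l : ℕ) (F : MvPolynomial (Fin n) K)
  (a w : Fin n → K), F.totalDegree ≤ d → d < Fintype.card K * k →
  (∀ s : K, F ∈ mId K n (a + s • w) ^ (l + k)) →
  MvPolynomial.homogeneousComponent d F ∈ mId K n w ^ l

/-- existence of a polynomial of small degree with high multiplicity -/
def DIM : Prop := ∀ (K : Type) [Field K] [Fintype K] (n m d : ℕ) (S : Finset (Fin n → K)),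
  S.card * (m + n).choose n < (d + n).choose n →
  ∃ F : MvPolynomial (Fin n) K, F ≠ 0 ∧ F.totalDegree ≤ d ∧ ∀ a ∈ S, F ∈ mId K n a ^ (m + 1)

/-- Kakeya sets in `K^n` have at least `q^n / 2^n` elements -/
def KAK : Prop := ∀ (K : Type) [Field K] [Fintype K] (n : ℕ) (S : Finset (Fin n → K)),
  (∀ w : Fin n → K, ∃ a : Fin n → K, ∀ s : K, a + s • w ∈ S) → Fintype.card K ^ n ≤ 2 ^ n * S.card

/-- covering a finite commutative group by translates of a set -/
def COV : Prop := ∀ (G : Type) [CommGroup G] [Fintype G] (D : Finset G), D.Nonempty →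
  ∃ T : Finset G, (∀ g : G, ∃ t ∈ T, t * g ∈ D) ∧
    (T.card : ℝ) ≤ (Fintype.card G : ℝ) / D.card * Real.log (Fintype.card G) + 1

/-- sets which contain a line in each direction of a set `D` -/
def DIR : Prop := ∀ (K : Type) [Field K] [Fintype K] (n : ℕ) (D S : Finset (Fin n → K)),
  1 ≤ n → D.Nonempty → (0 : Fin n → K) ∉ D →
  (∀ w ∈ D, ∃ a : Fin n → K, ∀ s : K, a + s • w ∈ S) →
  (Fintype.card K : ℝ) ^ n ≤ 2 ^ n * S.card *
    ((Fintype.card K : ℝ) ^ n / D.card * (n * Real.log (Fintype.card K)) + 1)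

/-- the polynomial with the coefficients `w` -/
noncomputable def pol {K : Type} [Field K] {n : ℕ} (w : Fin n → K) : K[X] :=
  ∑ i : Fin n, monomial (i : ℕ) (w i)

/-- the monic irreducible polynomials of degree `r` -/
def irr (F : Type) [Field F] (r : ℕ) : Set F[X] := {P | P.Monic ∧ Irreducible P ∧ P.natDegree = r}

/-- the polynomials of degree `< n` in one of the chosen classes: `f ≡ a P (mod P)` for some `P ∈ Ps` -/
def covered (F : Type) [Field F] (n : ℕ) (Ps : Set F[X]) (a : F[X] → F[X]) : Set F[X] :=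
  {f | f.degree < n ∧ ∃ P ∈ Ps, P ∣ f - a P}

/-- the directions coming from the moduli -/
def DRS : Prop := ∀ (F : Type) [Field F] [Fintype F] (r n : ℕ) (Ps : Finset F[X]), 1 ≤ r → r < n →
  (∀ P ∈ Ps, P ∈ irr F r) →
  ∃ D : Finset (Fin n → F), (0 : Fin n → F) ∉ D ∧
    (∀ w ∈ D, ∃ P ∈ Ps, P ∣ pol w) ∧
    r * (Ps.card * (Fintype.card F ^ (n - r) - 1)) ≤ n * D.card

/-- there are many monic irreducible polynomials of degree `r` -/
def CNT : Prop := ∀ (F : Type) [Field F] [Fintype F] (r : ℕ), 1 ≤ r → 3 ≤ Fintype.card F →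
  (irr F r).Finite ∧ Fintype.card F ^ r ≤ 2 * r * (irr F r).ncard

/-- first form -/
def MN1 : Prop := ∀ (F : Type) [Field F] [Fintype F] (r n : ℕ) (Ps : Set F[X]) (a : F[X] → F[X]),
  1 ≤ r → r < n → Ps ⊆ irr F r →
  (Ps.ncard : ℝ) * (Fintype.card F : ℝ) ^ (n - r) ≤
    2 ^ n * (2 * (n : ℝ) ^ 2 / r * Real.log (Fintype.card F) + 1) * (covered F n Ps a).ncard

/-- second form: all monic irreducible polynomials of degree `r` -/
def MN2 : Prop := ∀ (F : Type) [Field F] [Fintype F] (r n : ℕ) (a : F[X] → F[X]),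
  1 ≤ r → r < n → 3 ≤ Fintype.card F →
  (Fintype.card F : ℝ) ^ n ≤
    2 ^ n * (4 * (n : ℝ) ^ 2 * Real.log (Fintype.card F) + 2 * r) * (covered F n (irr F r) a).ncard

/-- third form: the exponent `1 - ε` -/
def MN3 : Prop := ∀ ε : ℝ, 0 < ε → ∃ q₀ : ℕ, ∀ (F : Type) [Field F] [Fintype F], q₀ ≤ Fintype.card F →
  ∀ (r n : ℕ) (a : F[X] → F[X]), 1 ≤ r → r < n →
  (Fintype.card F : ℝ) ^ ((n : ℝ) * (1 - ε)) ≤ (covered F n (irr F r) a).ncard

end Pool.Agent.N742.FK
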