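import Mathlib
import Pool.Agent.N742.FK.Stm

set_option autoImplicit false

/-!
# FK/DRS: the directions coming from the moduli (helper441)
-/

namespace Pool.Agent.N742.FK

open Polynomial

section

variable {F : Type} [Field F]

lemma drs_coeff {n : ℕ} (w : Fin n → F) (i : Fin n) : (pol w).coeff i = w i := by
  unfold pol
  rw [finsetSum_coeff, Finset.sum_eq_single i]
  · rw [coeff_monomial, if_pos rfl]
  · intro j _ hj
    rw [coeff_monomial, if_neg]
    intro h
    exact hj (Fin.ext h)
  · intro h
    exact absurd (Finset.mem_univ _) h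

lemma drs_deg {n : ℕ} (w : Fin n → F) : (pol w).degree < n := by
  unfold pol
  rw [← mem_degreeLT]
  refine Submodule.sum_mem _ fun i _ => ?_
  rw [mem_degreeLT]
  refine lt_of_le_of_lt (degree_monomial_le _ _) ?_
  exact_mod_cast i.2

lemma drs_surj {n : ℕ} (f : F[X]) (hf : f.degree < n) :
    pol (fun i : Fin n => f.coeff i) = f := by
  ext i
  by_cases hi : i < n
  · exact drs_coeff (fun i : Fin n => f.coeff i) ⟨i, hi⟩
  · have h1 : (n : WithBot ℕ) ≤ i := by exact_mod_cast not_lt.1 hi
    rw [coeff_eq_zero_of_degree_lt (hf.trans_le h1),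
      coeff_eq_zero_of_degree_lt ((drs_deg _).trans_le h1)]

lemma drs_inj {n : ℕ} {w w' : Fin n → F} (h : pol w = pol w') : w = w' := by
  funext i
  rw [← drs_coeff w i, ← drs_coeff w' i, h]

lemma drs_zero {n : ℕ} : pol (0 : Fin n → F) = 0 := by
  unfold pol
  exact Finset.sum_eq_zero fun i _ => by simp

lemma drs_cop {r : ℕ} {P Q : F[X]} (hP : P ∈ irr F r) (hQ : Q ∈ irr F r) (h : P ≠ Q) :
    IsCoprime P Q := by
  rw [hP.2.1.coprime_iff_not_dvd]
  intro h1
  exact h (eq_of_monic_of_associated hP.1 hQ.1 (hP.2.1.associated_of_dvd hQ.2.1 h1))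

end

/-- the directions coming from the moduli -/
theorem drs : DRS := by
  classical
  intro F _ _ r n Ps hr hrn hPs
  obtain ⟨D, hD⟩ : ∃ D : Finset (Fin n → F), D = Finset.univ.filter (fun w =>
    w ≠ 0 ∧ ∃ P ∈ Ps, P ∣ pol w) := ⟨_, rfl⟩
  have hmem : ∀ w, w ∈ D ↔ w ≠ 0 ∧ ∃ P ∈ Ps, P ∣ pol w := by
    intro w
    rw [hD]
    simp
  refine ⟨D, fun h => ((hmem 0).1 h).1 rfl, fun w hw => ((hmem w).1 hw).2, ?_⟩
  have ha : ∀ P ∈ Ps, Fintype.card F ^ (n - r) - 1 ≤
      (D.bipartiteAbove (fun (P : F[X]) (w : Fin n → F) => P ∣ pol w) P).card := by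
    intro P hP
    obtain ⟨hPm, hPi, hPd⟩ := hPs P hP
    have hc : Fintype.card F ^ (n - r) - 1 =
        ((Finset.univ : Finset (Fin (n - r) → F)).erase 0).card := by
      rw [Finset.card_erase_of_mem (Finset.mem_univ _), Finset.card_univ, Fintype.card_fun,
        Fintype.card_fin]
    have hdeg : ∀ g : Fin (n - r) → F, (P * pol g).degree < n := by
      intro g
      by_cases hg : pol g = 0
      · rw [hg, mul_zero, degree_zero]
        exact WithBot.bot_lt_coe _
      rw [degree_mul, degree_eq_natDegree hPm.ne_zero, hPd, degree_eq_natDegree hg]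
      have h1 := drs_deg g
      rw [degree_eq_natDegree hg] at h1
      have h2 : (pol g).natDegree < n - r := by exact_mod_cast h1
      have h3 : r + (pol g).natDegree < n := by omega
      exact_mod_cast h3
    rw [hc]
    refine Finset.card_le_card_of_injOn (fun g => fun i : Fin n => (P * pol g).coeff i) ?_ ?_
    · intro g hg
      have hg0 : g ≠ 0 := by simpa using hg
      have h1 : pol (fun i : Fin n => (P * pol g).coeff i) = P * pol g := drs_surj _ (hdeg g)
      have h2 : P ∣ pol (fun i : Fin n => (P * pol g).coeff i) := by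
        rw [h1]
        exact dvd_mul_right _ _
      rw [Finset.mem_coe, Finset.mem_bipartiteAbove, hmem]
      refine ⟨⟨?_, P, hP, h2⟩, h2⟩
      intro h3
      have h5 : (fun i : Fin n => (P * pol g).coeff i) = 0 := h3
      rw [h5, drs_zero] at h1
      rcases mul_eq_zero.1 h1.symm with h4 | h4
      · exact hPm.ne_zero h4
      · apply hg0
        apply drs_inj
        rw [h4, drs_zero]
    · intro g _ g' _ h
      have h1 : pol (fun i : Fin n => (P * pol g).coeff i) = P * pol g := drs_surj _ (hdeg g)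
      have h2 : pol (fun i : Fin n => (P * pol g').coeff i) = P * pol g' := drs_surj _ (hdeg g')
      have h3 : P * pol g = P * pol g' := by
        rw [← h1, ← h2]
        exact congrArg pol h
      exact drs_inj (mul_left_cancel₀ hPm.ne_zero h3)
  have hb : ∀ w ∈ D, r * (Ps.bipartiteBelow (fun (P : F[X]) (w : Fin n → F) => P ∣ pol w) w).card ≤
      n := by
    intro w hw
    obtain ⟨hw0, -⟩ := (hmem w).1 hw
    have hp0 : pol w ≠ 0 := by
      intro h
      apply hw0
      apply drs_inj
      rw [h, drs_zero]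
    have h1 : (∏ P ∈ Ps.bipartiteBelow (fun (P : F[X]) (w : Fin n → F) => P ∣ pol w) w, P) ∣
        pol w := by
      refine Finset.prod_dvd_of_coprime ?_ ?_
      · intro P hP Q hQ hPQ
        rw [Finset.mem_coe, Finset.mem_bipartiteBelow] at hP hQ
        exact drs_cop (hPs P hP.1) (hPs Q hQ.1) hPQ
      · intro P hP
        exact ((Finset.mem_bipartiteBelow _).1 hP).2
    have h2 := natDegree_le_of_dvd h1 hp0
    rw [natDegree_prod_of_monic _ _ (fun P hP =>
      (hPs P ((Finset.mem_bipartiteBelow _).1 hP).1).1),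
      Finset.sum_congr rfl (fun P hP => (hPs P ((Finset.mem_bipartiteBelow _).1 hP).1).2.2),
      Finset.sum_const, smul_eq_mul] at h2
    have h3 := drs_deg w
    rw [degree_eq_natDegree hp0] at h3
    have h4 : (pol w).natDegree < n := by exact_mod_cast h3
    rw [mul_comm]
    omega
  calc r * (Ps.card * (Fintype.card F ^ (n - r) - 1))
      = r * ∑ P ∈ Ps, (Fintype.card F ^ (n - r) - 1) := by
        rw [Finset.sum_const, smul_eq_mul]
    _ ≤ r * ∑ P ∈ Ps,
        (D.bipartiteAbove (fun (P : F[X]) (w : Fin n → F) => P ∣ pol w) P).card :=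
        Nat.mul_le_mul_left _ (Finset.sum_le_sum ha)
    _ = r * ∑ w ∈ D,
        (Ps.bipartiteBelow (fun (P : F[X]) (w : Fin n → F) => P ∣ pol w) w).card := by
        rw [Finset.sum_card_bipartiteAbove_eq_sum_card_bipartiteBelow]
    _ = ∑ w ∈ D,
        r * (Ps.bipartiteBelow (fun (P : F[X]) (w : Fin n → F) => P ∣ pol w) w).card := by
        rw [Finset.mul_sum]
    _ ≤ ∑ w ∈ D, n := Finset.sum_le_sum hb
    _ = n * D.card := by rw [Finset.sum_const, smul_eq_mul, mul_comm]

end Pool.Agent.N742.FK
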