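import Pool.Agent.N742.FK.Stm

set_option autoImplicit false

/-!
# Kakeya sets (project FK, helper742; this part by helper80)
-/

namespace Pool.Agent.N742.FK

open Filter Topology

lemma kak_h (q n c : ℕ) (hlt : 2 ^ n * c < q ^ n) :
    ∃ h : ℕ, 1 ≤ h ∧ c * (2 * h + 2 * n) ^ n < (q * h) ^ n := by
  have h1 : Tendsto (fun h : ℕ => (c : ℝ) * (2 + 2 * (n : ℝ) / (h : ℝ)) ^ n) atTop
      (𝓝 ((c : ℝ) * (2 + 0) ^ n)) := by
    refine Tendsto.const_mul _ (Tendsto.pow (Tendsto.const_add _ ?_) _)
    exact tendsto_const_div_atTop_nhds_zero_nat _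
  have h2 : (c : ℝ) * (2 + 0) ^ n < (q : ℝ) ^ n := by
    rw [add_zero, mul_comm]
    exact_mod_cast hlt
  obtain ⟨h, hh, hh1⟩ := ((h1.eventually_lt_const h2).and (eventually_ge_atTop 1)).exists
  refine ⟨h, hh1, ?_⟩
  have hpos : (0 : ℝ) < h := by exact_mod_cast hh1
  have h3 : (c : ℝ) * (2 * h + 2 * n) ^ n < ((q : ℝ) * h) ^ n := by
    have e1 : (2 * (h : ℝ) + 2 * n) = (2 + 2 * (n : ℝ) / (h : ℝ)) * h := by
      field_simp
    rw [e1, mul_pow, mul_pow, ← mul_assoc]
    exact mul_lt_mul_of_pos_right hh (by positivity)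
  exact_mod_cast h3

lemma kak_top {K : Type} [Field K] {n : ℕ} {F : MvPolynomial (Fin n) K} (hF : F ≠ 0) :
    MvPolynomial.homogeneousComponent F.totalDegree F ≠ 0 := by
  classical
  have hne : F.support.Nonempty := by
    rw [Finset.nonempty_iff_ne_empty]
    intro h
    exact hF (MvPolynomial.support_eq_empty.1 h)
  obtain ⟨s, hs, hs2⟩ := Finset.exists_mem_eq_sup F.support hne
    (fun s : Fin n →₀ ℕ => s.sum fun _ e => e)
  intro h0
  have h1 : MvPolynomial.coeff s (MvPolynomial.homogeneousComponent F.totalDegree F) = 0 := by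
    rw [h0, MvPolynomial.coeff_zero]
  rw [MvPolynomial.coeff_homogeneousComponent, if_pos] at h1
  · exact MvPolynomial.mem_support_iff.1 hs h1
  · change _ = F.support.sup _
    rw [hs2]
    rfl

theorem kak (hS : SZ) (hL : LINE) (hD : DIM) : KAK := by
  classical
  intro K _ _ n S hK
  by_contra hcon
  have hlt : 2 ^ n * S.card < Fintype.card K ^ n := not_le.1 hcon
  obtain ⟨h, hh1, hh⟩ := kak_h (Fintype.card K) n S.card hlt
  have hq : 2 ≤ Fintype.card K := Fintype.one_lt_card
  have hqh : 1 ≤ Fintype.card K * h := Nat.mul_pos (by omega) hh1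
  obtain ⟨d, hd⟩ : ∃ d, Fintype.card K * h = d + 1 := ⟨Fintype.card K * h - 1, by omega⟩
  obtain ⟨m, hm⟩ : ∃ m, h + n + h = m + 1 := ⟨h + n + h - 1, by omega⟩
  have hbin : S.card * (m + n).choose n < (d + n).choose n := by
    have h1 : n.factorial * (m + n).choose n ≤ (2 * h + 2 * n) ^ n := by
      rw [← Nat.descFactorial_eq_factorial_mul_choose]
      exact (Nat.descFactorial_le_pow _ _).trans (Nat.pow_le_pow_left (by omega) _)
    have h2 : (Fintype.card K * h) ^ n ≤ n.factorial * (d + n).choose n := by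
      rw [← Nat.descFactorial_eq_factorial_mul_choose, hd]
      have h3 := Nat.pow_sub_le_descFactorial (d + n) n
      rwa [show d + n + 1 - n = d + 1 by omega] at h3
    have h4 : n.factorial * (S.card * (m + n).choose n) < n.factorial * (d + n).choose n :=
      calc n.factorial * (S.card * (m + n).choose n)
          = S.card * (n.factorial * (m + n).choose n) := by ring
        _ ≤ S.card * (2 * h + 2 * n) ^ n := Nat.mul_le_mul_left _ h1
        _ < (Fintype.card K * h) ^ n := hh
        _ ≤ _ := h2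
    exact lt_of_mul_lt_mul_left h4 (Nat.zero_le _)
  obtain ⟨F, hF0, hFd, hF⟩ := hD K n m d S hbin
  have hd' : F.totalDegree < Fintype.card K * h := by omega
  have hH : ∀ w : Fin n → K,
      MvPolynomial.homogeneousComponent F.totalDegree F ∈ mId K n w ^ (h + n) := by
    intro w
    obtain ⟨a, ha⟩ := hK w
    refine hL K n F.totalDegree h (h + n) F a w le_rfl hd' fun s => ?_
    rw [hm]
    exact hF _ (ha s)
  have hdeg : (MvPolynomial.homogeneousComponent F.totalDegree F).totalDegree ≤ F.totalDegree :=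
    (MvPolynomial.homogeneousComponent_isHomogeneous _ _).totalDegree_le
  refine kak_top hF0 (hS K n (h + n) _ hH ?_)
  calc (MvPolynomial.homogeneousComponent F.totalDegree F).totalDegree + Fintype.card K * n
      ≤ F.totalDegree + Fintype.card K * n := Nat.add_le_add_right hdeg _
    _ < Fintype.card K * h + Fintype.card K * n := Nat.add_lt_add_right hd' _
    _ = Fintype.card K * (h + n) := by ring

end Pool.Agent.N742.FK
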