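import Pool.Agent.N742.FK.Stm

set_option autoImplicit false

namespace Pool.Agent.N742.FK

open Polynomial

section LineAux

variable {K : Type} [Field K] {n : ℕ}

/-- restriction to a generic line through `a` -/
noncomputable def line_phi (a : Fin n → K) :
    MvPolynomial (Fin n) K →ₐ[K] (MvPolynomial (Fin n) K)[X] :=
  MvPolynomial.aeval fun i =>
    (C (MvPolynomial.C (a i)) + C (MvPolynomial.X i) * X : (MvPolynomial (Fin n) K)[X])

theorem line_lin_deg (a : Fin n → K) (i : Fin n) :
    (C (MvPolynomial.C (a i)) + C (MvPolynomial.X i) * X :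
      (MvPolynomial (Fin n) K)[X]).natDegree ≤ 1 := by
  rw [add_comm]
  exact natDegree_linear_le

theorem line_lin_coeff (a : Fin n → K) (i : Fin n) :
    (C (MvPolynomial.C (a i)) + C (MvPolynomial.X i) * X :
      (MvPolynomial (Fin n) K)[X]).coeff 1 = MvPolynomial.X i := by
  simp [coeff_C]

theorem line_prod (a : Fin n → K) (m : Fin n → ℕ) (s : Finset (Fin n)) :
    (∏ i ∈ s, (C (MvPolynomial.C (a i)) + C (MvPolynomial.X i) * X :
      (MvPolynomial (Fin n) K)[X]) ^ m i).natDegree ≤ ∑ i ∈ s, m i ∧
    (∏ i ∈ s, (C (MvPolynomial.C (a i)) + C (MvPolynomial.X i) * X :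
      (MvPolynomial (Fin n) K)[X]) ^ m i).coeff (∑ i ∈ s, m i) =
      ∏ i ∈ s, (MvPolynomial.X i : MvPolynomial (Fin n) K) ^ m i := by
  classical
  induction s using Finset.induction_on with
  | empty => simp
  | insert j s hj ih =>
    rw [Finset.prod_insert hj, Finset.sum_insert hj, Finset.prod_insert hj]
    have h1 : ((C (MvPolynomial.C (a j)) + C (MvPolynomial.X j) * X :
        (MvPolynomial (Fin n) K)[X]) ^ m j).natDegree ≤ m j := by
      refine natDegree_pow_le.trans ?_
      have := line_lin_deg a j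
      calc _ ≤ m j * 1 := Nat.mul_le_mul_left _ this
        _ = m j := mul_one _
    have h2 : ((C (MvPolynomial.C (a j)) + C (MvPolynomial.X j) * X :
        (MvPolynomial (Fin n) K)[X]) ^ m j).coeff (m j) = MvPolynomial.X j ^ m j := by
      have := coeff_pow_of_natDegree_le (m := m j) (line_lin_deg a j)
      rw [mul_one, line_lin_coeff] at this
      exact this
    refine ⟨natDegree_mul_le.trans (add_le_add h1 ih.1), ?_⟩
    rw [coeff_mul_add_eq_of_natDegree_le h1 ih.1, h2, ih.2]

theorem line_mon (a : Fin n → K) (m : Fin n →₀ ℕ) (c : K) :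
    (line_phi a (MvPolynomial.monomial m c)).natDegree ≤ m.degree ∧
    (line_phi a (MvPolynomial.monomial m c)).coeff m.degree = MvPolynomial.monomial m c := by
  have h0 : line_phi a (MvPolynomial.monomial m c) =
      C (MvPolynomial.C c) * ∏ i ∈ (Finset.univ : Finset (Fin n)),
        (C (MvPolynomial.C (a i)) + C (MvPolynomial.X i) * X :
          (MvPolynomial (Fin n) K)[X]) ^ m i := by
    unfold line_phi
    rw [MvPolynomial.aeval_monomial, Finsupp.prod_fintype _ _ (fun i => pow_zero _)]
    rfl
  have hd : m.degree = ∑ i ∈ (Finset.univ : Finset (Fin n)), m i := by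
    rw [Finsupp.degree_eq_sum]
  obtain ⟨h1, h2⟩ := line_prod a m Finset.univ
  rw [h0, hd]
  refine ⟨natDegree_C_mul_le _ _ |>.trans h1, ?_⟩
  rw [coeff_C_mul, h2, MvPolynomial.monomial_eq, Finsupp.prod_fintype _ _ (fun i => pow_zero _)]

theorem line_top (a : Fin n → K) (d : ℕ) (F : MvPolynomial (Fin n) K) (hF : F.totalDegree ≤ d) :
    (line_phi a F).natDegree ≤ d ∧
    (line_phi a F).coeff d = MvPolynomial.homogeneousComponent d F := by
  have h0 : line_phi a F = ∑ m ∈ F.support, line_phi a (MvPolynomial.monomial m (F.coeff m)) := by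
    conv_lhs => rw [← MvPolynomial.support_sum_monomial_coeff F]
    rw [map_sum]
  have hm : ∀ m ∈ F.support, m.degree ≤ d := by
    intro m hm
    have := MvPolynomial.le_totalDegree hm
    refine le_trans ?_ hF
    rw [Finsupp.degree_apply]
    exact this
  constructor
  · rw [h0]
    refine natDegree_sum_le_of_forall_le _ _ fun m h => ?_
    exact (line_mon a m _).1.trans (hm m h)
  · rw [h0, finsetSum_coeff, MvPolynomial.homogeneousComponent_apply, Finset.sum_filter]
    refine Finset.sum_congr rfl fun m h => ?_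
    split_ifs with hmd
    · rw [← hmd, (line_mon a m _).2]
    · refine coeff_eq_zero_of_natDegree_lt (lt_of_le_of_lt (line_mon a m _).1 ?_)
      exact lt_of_le_of_ne (hm m h) hmd

theorem line_map (a w : Fin n → K) (s : K) :
    (mId K n (a + s • w)).map (line_phi a) ≤
      Ideal.span {(X - C (algebraMap K (MvPolynomial (Fin n) K) s))} ⊔ (mId K n w).map C := by
  unfold mId
  rw [Ideal.map_span, Ideal.span_le]
  rintro _ ⟨_, ⟨i, rfl⟩, rfl⟩
  have h1 : line_phi a (MvPolynomial.X i - MvPolynomial.C ((a + s • w) i)) =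
      C (MvPolynomial.X i) * (X - C (algebraMap K (MvPolynomial (Fin n) K) s)) +
      C (MvPolynomial.C s) * C (MvPolynomial.X i - MvPolynomial.C (w i)) := by
    unfold line_phi
    rw [map_sub, MvPolynomial.aeval_X, MvPolynomial.aeval_C]
    have h2 : (algebraMap K (MvPolynomial (Fin n) K)[X]) ((a + s • w) i) =
        C (MvPolynomial.C (a i)) + C (MvPolynomial.C s) * C (MvPolynomial.C (w i)) := by
      rw [← map_mul, ← map_mul, ← map_add, ← map_add]
      rfl
    have h3 : (algebraMap K (MvPolynomial (Fin n) K) s) = MvPolynomial.C s := rfl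
    rw [h2, h3, C_sub]
    ring
  have h1' : (line_phi a : MvPolynomial (Fin n) K → (MvPolynomial (Fin n) K)[X])
      (MvPolynomial.X i - MvPolynomial.C ((a + s • w) i)) ∈
      Ideal.span {(X - C (algebraMap K (MvPolynomial (Fin n) K) s))} ⊔
        (Ideal.span (Set.range fun i : Fin n =>
          (MvPolynomial.X i - MvPolynomial.C (w i) : MvPolynomial (Fin n) K))).map C := by
    rw [h1]
    refine Ideal.add_mem _ (Ideal.mem_sup_left ?_) (Ideal.mem_sup_right ?_)
    · exact Ideal.mul_mem_left _ _ (Ideal.subset_span rfl)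
    · exact Ideal.mul_mem_left _ _ (Ideal.mem_map_of_mem _ (Ideal.subset_span ⟨i, rfl⟩))
  exact h1'

end LineAux

theorem line (hP : POLY) : LINE := by
  intro K _ _ n d k l F a w hF hd hs
  obtain ⟨h1, h2⟩ := line_top a d F hF
  rw [← h2]
  refine hP K (MvPolynomial (Fin n) K) (mId K n w ^ l) k (line_phi a F) (lt_of_le_of_lt h1 hd) ?_ d
  intro c
  have h3 : line_phi a F ∈ ((mId K n (a + c • w)) ^ (l + k)).map (line_phi a) :=
    Ideal.mem_map_of_mem _ (hs c)
  rw [Ideal.map_pow] at h3
  have h4 := Ideal.pow_right_mono (line_map a w c) (l + k) h3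
  rw [add_comm] at h4
  have h5 := Ideal.sup_pow_add_le_pow_sup_pow h4
  rwa [Ideal.span_singleton_pow, ← Ideal.map_pow] at h5

end Pool.Agent.N742.FK
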