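import Pool.Agent.N742.FK.Stm

set_option autoImplicit false

/-! # First assembly (from DIR and DRS) -/

namespace Pool.Agent.N742.FK

open Polynomial

theorem mn1_coeff {F : Type} [Field F] {n : ℕ} (w : Fin n → F) (j : ℕ) :
    (pol w).coeff j = if h : j < n then w ⟨j, h⟩ else 0 := by
  unfold pol
  rw [finsetSum_coeff]
  simp only [coeff_monomial]
  split_ifs with h
  · rw [Finset.sum_eq_single (⟨j, h⟩ : Fin n)]
    · simp
    · intro i _ hi
      rw [if_neg]
      intro hij
      exact hi (Fin.ext hij)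
    · intro h1
      exact absurd (Finset.mem_univ _) h1
  · apply Finset.sum_eq_zero
    intro i _
    rw [if_neg]
    intro hij
    exact h (hij ▸ i.2)

theorem mn1_inj {F : Type} [Field F] {n : ℕ} : Function.Injective (pol : (Fin n → F) → F[X]) := by
  intro w w' h
  funext i
  have := congrArg (fun p : F[X] => p.coeff i) h
  simp only [mn1_coeff, i.2, dif_pos, Fin.eta] at this
  exact this

theorem mn1_deg {F : Type} [Field F] {n : ℕ} (w : Fin n → F) : (pol w).degree < n := by
  rw [degree_lt_iff_coeff_zero]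
  intro j hj
  rw [mn1_coeff, dif_neg (by omega)]

theorem mn1_of {F : Type} [Field F] {n : ℕ} (f : F[X]) (hf : f.degree < n) :
    pol (fun i : Fin n => f.coeff i) = f := by
  ext j
  rw [mn1_coeff]
  split_ifs with h
  · rfl
  · rw [degree_lt_iff_coeff_zero] at hf
    exact (hf j (by omega)).symm

theorem mn1_line {F : Type} [Field F] {n : ℕ} (b w : Fin n → F) (s : F) :
    pol (b + s • w) = pol b + C s * pol w := by
  ext j
  rw [coeff_add, coeff_C_mul, mn1_coeff, mn1_coeff, mn1_coeff]
  split_ifs with h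
  · simp
  · simp

theorem mn1_irr (F : Type) [Field F] [Fintype F] (r : ℕ) :
    (irr F r).Finite ∧ (irr F r).ncard ≤ Fintype.card F ^ r := by
  classical
  have hinj : Set.InjOn (fun P : F[X] => fun i : Fin r => P.coeff i) (irr F r) := by
    rintro P ⟨hP1, -, hP2⟩ Q ⟨hQ1, -, hQ2⟩ h
    ext j
    rcases lt_trichotomy j r with hj | hj | hj
    · have := congrFun h ⟨j, hj⟩
      exact this
    · subst hj
      have h1 : P.coeff P.natDegree = 1 := hP1
      have h2 : Q.coeff Q.natDegree = 1 := hQ1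
      rw [hP2] at h1
      rw [hQ2] at h2
      rw [h1, h2]
    · rw [coeff_eq_zero_of_natDegree_lt (by omega), coeff_eq_zero_of_natDegree_lt (by omega)]
  refine ⟨Set.Finite.of_finite_image (Set.toFinite _) hinj, ?_⟩
  rw [← hinj.ncard_image]
  refine (Set.ncard_le_card _).trans ?_
  rw [Nat.card_fun, Nat.card_eq_fintype_card, Nat.card_eq_fintype_card, Fintype.card_fin]

theorem mn1 (hR : DIR) (hD : DRS) : MN1 := by
  classical
  intro F _ _ r n Ps a hr hrn hPs
  set q : ℝ := (Fintype.card F : ℝ) with hq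
  have hq2 : 2 ≤ Fintype.card F := Fintype.one_lt_card
  have hq2R : (2 : ℝ) ≤ q := by rw [hq]; exact_mod_cast hq2
  have hq0 : 0 < q := by linarith
  have hlog : 0 ≤ Real.log q := Real.log_nonneg (by linarith)
  have hr0 : (0 : ℝ) < r := by exact_mod_cast hr
  have hn0 : (0 : ℝ) < n := by exact_mod_cast (by omega : 0 < n)
  obtain ⟨hfin, hcard⟩ := mn1_irr F r
  have hPfin : Ps.Finite := hfin.subset hPs
  have hPcard : Ps.ncard ≤ Fintype.card F ^ r := (Set.ncard_le_ncard hPs hfin).trans hcard
  by_cases hempty : Ps.ncard = 0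
  · rw [hempty, Nat.cast_zero, zero_mul]
    positivity
  set A : ℝ := (Ps.ncard : ℝ) with hA
  have hA1 : 1 ≤ A := by rw [hA]; exact_mod_cast Nat.one_le_iff_ne_zero.mpr hempty
  have hAq : A ≤ q ^ r := by
    rw [hA, hq]
    exact_mod_cast hPcard
  set Pf := hPfin.toFinset with hPf
  have hPfc : Pf.card = Ps.ncard := by
    rw [hPf, Set.ncard_eq_toFinset_card _ hPfin]
  obtain ⟨D, hD0, hDP, hDc⟩ := hD F r n Pf hr hrn (fun P hP => hPs (hPfin.mem_toFinset.mp hP))
  rw [hPfc] at hDc
  set S : Finset (Fin n → F) := Finset.univ.filter fun w => pol w ∈ covered F n Ps a with hS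
  have hScard : (covered F n Ps a).ncard = S.card := by
    have h1 : covered F n Ps a = pol '' (S : Set (Fin n → F)) := by
      ext f
      constructor
      · intro hf
        refine ⟨fun i => f.coeff i, ?_, mn1_of f hf.1⟩
        rw [hS, Finset.coe_filter]
        refine ⟨Finset.mem_univ _, ?_⟩
        rw [mn1_of f hf.1]
        exact hf
      · rintro ⟨w, hw, rfl⟩
        rw [hS, Finset.coe_filter] at hw
        exact hw.2
    rw [h1, Set.ncard_image_of_injective _ mn1_inj, Set.ncard_coe_finset]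
  have hlines : ∀ w ∈ D, ∃ b : Fin n → F, ∀ s : F, b + s • w ∈ S := by
    intro w hw
    obtain ⟨P, hP, hPw⟩ := hDP w hw
    have hPP : P ∈ Ps := hPfin.mem_toFinset.mp hP
    obtain ⟨hPm, -, hPd⟩ := hPs hPP
    have hdeg : (a P %ₘ P).degree < n := by
      refine (degree_modByMonic_lt (a P) hPm).trans ?_
      rw [degree_eq_natDegree hPm.ne_zero, hPd]
      exact_mod_cast hrn
    refine ⟨fun i => (a P %ₘ P).coeff i, fun s => ?_⟩
    rw [hS, Finset.mem_filter]
    refine ⟨Finset.mem_univ _, mn1_deg _, P, hPP, ?_⟩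
    rw [mn1_line, mn1_of _ hdeg]
    have h1 : a P %ₘ P + C s * pol w - a P = C s * pol w - P * (a P /ₘ P) := by
      have := modByMonic_add_div (a P) P
      linear_combination this
    rw [h1]
    exact dvd_sub (Dvd.dvd.mul_left hPw _) (Dvd.intro _ rfl)
  -- the size of D
  have hqnr : 2 ≤ Fintype.card F ^ (n - r) := by
    calc 2 ≤ Fintype.card F := hq2
      _ = Fintype.card F ^ 1 := (pow_one _).symm
      _ ≤ Fintype.card F ^ (n - r) := Nat.pow_le_pow_right (by omega) (by omega)
  have hDcR : (r : ℝ) * (A * (q ^ (n - r) - 1)) ≤ n * D.card := by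
    have h1 : ((r * (Ps.ncard * (Fintype.card F ^ (n - r) - 1)) : ℕ) : ℝ) ≤ ((n * D.card : ℕ) : ℝ) := by
      exact_mod_cast hDc
    push_cast [Nat.cast_sub (by omega : 1 ≤ Fintype.card F ^ (n - r))] at h1
    exact h1
  set Q : ℝ := q ^ (n - r) with hQ
  have hQ2 : 2 ≤ Q := by
    rw [hQ, hq]
    exact_mod_cast hqnr
  have hDlow : (r : ℝ) * A * Q ≤ 2 * n * D.card := by
    have h1 : 0 ≤ (r : ℝ) * A := by positivity
    nlinarith
  have hDpos : (0 : ℝ) < D.card := by
    have h1 : 0 < (r : ℝ) * A * Q := by positivity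
    by_contra hcon
    push Not at hcon
    nlinarith
  have hDne : D.Nonempty := by
    rw [← Finset.card_pos]
    exact_mod_cast hDpos
  have hmain := hR F n D S (by omega) hDne hD0 hlines
  rw [← hq] at hmain
  rw [hScard]
  have hqn : q ^ n = q ^ r * Q := by
    rw [hQ, ← pow_add]
    congr 1
    omega
  have hqr0 : 0 < q ^ r := by positivity
  have hQ0 : 0 < Q := by linarith
  have hratio : q ^ n / D.card ≤ 2 * n * q ^ r / (r * A) := by
    rw [div_le_div_iff₀ hDpos (by positivity), hqn]
    nlinarith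
  have h2S : (0 : ℝ) ≤ 2 ^ n * (S.card : ℝ) := by positivity
  have h3 : q ^ r * Q ≤ 2 ^ n * S.card * (2 * n * q ^ r / (r * A) * (n * Real.log q) + 1) := by
    rw [← hqn]
    refine hmain.trans ?_
    apply mul_le_mul_of_nonneg_left _ h2S
    have : q ^ n / D.card * (n * Real.log q) ≤ 2 * n * q ^ r / (r * A) * (n * Real.log q) :=
      mul_le_mul_of_nonneg_right hratio (by positivity)
    linarith
  have h4 : A * Q = (A / q ^ r) * (q ^ r * Q) := by field_simp
  have hAr0 : 0 ≤ A / q ^ r := by positivity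
  have hAr1 : A / q ^ r ≤ 1 := by rw [div_le_one hqr0]; exact hAq
  calc A * Q = (A / q ^ r) * (q ^ r * Q) := h4
    _ ≤ (A / q ^ r) * (2 ^ n * S.card * (2 * n * q ^ r / (r * A) * (n * Real.log q) + 1)) :=
        mul_le_mul_of_nonneg_left h3 hAr0
    _ = 2 ^ n * S.card * (2 * (n : ℝ) ^ 2 / r * Real.log q + A / q ^ r) := by
        field_simp
    _ ≤ 2 ^ n * S.card * (2 * (n : ℝ) ^ 2 / r * Real.log q + 1) := by
        apply mul_le_mul_of_nonneg_left _ h2S
        linarith
    _ = 2 ^ n * (2 * (n : ℝ) ^ 2 / r * Real.log q + 1) * S.card := by ring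

end Pool.Agent.N742.FK
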