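import Pool.Agent.N742.FK.Stm

set_option autoImplicit false

/-!
# Project FK (helper742), part MN23: all irreducible polynomials of degree `r`, the exponent `1 - ε`
-/

namespace Pool.Agent.N742.FK

open Polynomial

theorem mn2 (h1 : MN1) (hC : CNT) : MN2 := by
  intro F _ _ r n a hr hrn hq
  have a1 := h1 F r n (irr F r) a hr hrn subset_rfl
  obtain ⟨-, a2⟩ := hC F r hr hq
  have a3 : (Fintype.card F : ℝ) ^ r ≤ 2 * r * ((irr F r).ncard : ℝ) := by exact_mod_cast a2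
  have hr0 : (0 : ℝ) < r := by exact_mod_cast hr
  have e1 : (Fintype.card F : ℝ) ^ n = (Fintype.card F : ℝ) ^ r * (Fintype.card F : ℝ) ^ (n - r) := by
    rw [← pow_add]
    congr 1
    omega
  have e2 : (2 : ℝ) ^ n * (4 * (n : ℝ) ^ 2 * Real.log (Fintype.card F) + 2 * r) *
      (covered F n (irr F r) a).ncard = 2 * r * (2 ^ n * (2 * (n : ℝ) ^ 2 / r *
        Real.log (Fintype.card F) + 1) * (covered F n (irr F r) a).ncard) := by
    field_simp
    ring
  rw [e1, e2]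
  calc (Fintype.card F : ℝ) ^ r * (Fintype.card F : ℝ) ^ (n - r)
      ≤ 2 * r * ((irr F r).ncard : ℝ) * (Fintype.card F : ℝ) ^ (n - r) :=
        mul_le_mul_of_nonneg_right a3 (by positivity)
    _ = 2 * r * (((irr F r).ncard : ℝ) * (Fintype.card F : ℝ) ^ (n - r)) := by ring
    _ ≤ _ := mul_le_mul_of_nonneg_left a1 (by positivity)

theorem mn3_aux1 (n : ℕ) (hn : 2 ≤ n) : 6 * n ^ 2 ≤ 2 ^ (3 * n) := by
  induction n, hn using Nat.le_induction with
  | base => norm_num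
  | succ n hn ih =>
    have e : 2 ^ (3 * (n + 1)) = 8 * 2 ^ (3 * n) := by
      rw [Nat.mul_add, pow_add]
      norm_num
      ring
    rw [e]
    nlinarith

theorem mn3_aux2 (ε : ℝ) (hε : 0 < ε) : ∃ N : ℕ, ∀ q : ℕ, N ≤ q → Real.log q ≤ (q : ℝ) ^ ε := by
  have h1 := (isLittleO_log_rpow_atTop hε).bound (zero_lt_one)
  have h2 := tendsto_natCast_atTop_atTop (R := ℝ) |>.eventually h1
  obtain ⟨N, hN⟩ := Filter.eventually_atTop.1 h2
  refine ⟨N, fun q hq => ?_⟩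
  have h3 := hN q hq
  rw [one_mul, Real.norm_of_nonneg (Real.rpow_nonneg (Nat.cast_nonneg q) ε)] at h3
  exact (le_abs_self _).trans h3

theorem mn3 (h2 : MN2) : MN3 := by
  intro ε hε
  obtain ⟨N, hN⟩ := mn3_aux2 ε hε
  refine ⟨max 3 (max N ⌈(2 : ℝ) ^ (8 / ε)⌉₊), ?_⟩
  intro F _ _ hq r n a hr hrn
  have q3 : 3 ≤ Fintype.card F := (le_max_left _ _).trans hq
  have q4 : N ≤ Fintype.card F := ((le_max_left _ _).trans (le_max_right _ _)).trans hq
  have q5 : ⌈(2 : ℝ) ^ (8 / ε)⌉₊ ≤ Fintype.card F :=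
    ((le_max_right _ _).trans (le_max_right _ _)).trans hq
  have b1 := h2 F r n a hr hrn q3
  have b2 := hN _ q4
  obtain ⟨q, hqd⟩ : ∃ q : ℝ, q = (Fintype.card F : ℝ) := ⟨_, rfl⟩
  obtain ⟨S, hS⟩ : ∃ S : ℝ, S = ((covered F n (irr F r) a).ncard : ℝ) := ⟨_, rfl⟩
  have hS0 : 0 ≤ S := by rw [hS]; positivity
  have b3 : (2 : ℝ) ^ (8 / ε) ≤ q := by
    rw [hqd]
    exact (Nat.le_ceil _).trans (by exact_mod_cast q5)
  have b4 : (3 : ℝ) ≤ q := by rw [hqd]; exact_mod_cast q3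
  rw [← hqd] at b1 b2 ⊢
  rw [← hS] at b1 ⊢
  have hq0 : 0 < q := by linarith
  have hlog : 1 ≤ Real.log q := by
    rw [Real.le_log_iff_exp_le hq0]
    have := Real.exp_one_lt_d9
    linarith
  have hn2 : 2 ≤ n := by omega
  have c1 : (6 : ℝ) * (n : ℝ) ^ 2 ≤ 2 ^ (3 * n) := by exact_mod_cast mn3_aux1 n hn2
  have c2 : (r : ℝ) ≤ n := by exact_mod_cast hrn.le
  have c3 : (2 : ℝ) ≤ n := by exact_mod_cast hn2
  have c4 : 4 * (n : ℝ) ^ 2 * Real.log q + 2 * r ≤ 2 ^ (3 * n) * Real.log q := by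
    have h3 : 2 * (r : ℝ) ≤ 2 * (n : ℝ) ^ 2 * Real.log q := by
      have h4 : (n : ℝ) ≤ (n : ℝ) ^ 2 := by nlinarith
      have h5 : (n : ℝ) ^ 2 * 1 ≤ (n : ℝ) ^ 2 * Real.log q :=
        mul_le_mul_of_nonneg_left hlog (by positivity)
      nlinarith
    have h6 : 6 * (n : ℝ) ^ 2 * Real.log q ≤ 2 ^ (3 * n) * Real.log q :=
      mul_le_mul_of_nonneg_right c1 (by linarith)
    linarith
  have d1 : (2 : ℝ) ^ (4 * n) ≤ q ^ (ε * n / 2) := by
    have h3 : ((2 : ℝ) ^ (8 / ε)) ^ (ε * n / 2) ≤ q ^ (ε * n / 2) :=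
      Real.rpow_le_rpow (by positivity) b3 (by positivity)
    refine le_trans (le_of_eq ?_) h3
    rw [← Real.rpow_mul (by norm_num), ← Real.rpow_natCast]
    congr 1
    push_cast
    field_simp
    ring
  have d2 : Real.log q ≤ q ^ (ε * n / 2) := by
    refine b2.trans (Real.rpow_le_rpow_of_exponent_le (by linarith) ?_)
    nlinarith
  have d3 : q ^ n ≤ q ^ (ε * n) * S := by
    calc q ^ n ≤ 2 ^ n * (4 * (n : ℝ) ^ 2 * Real.log q + 2 * r) * S := b1
      _ ≤ 2 ^ n * (2 ^ (3 * n) * Real.log q) * S := by gcongr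
      _ = 2 ^ (4 * n) * Real.log q * S := by
          have : (2 : ℝ) ^ (4 * n) = 2 ^ n * 2 ^ (3 * n) := by
            rw [← pow_add]
            congr 1
            ring
          rw [this]
          ring
      _ ≤ q ^ (ε * n / 2) * q ^ (ε * n / 2) * S := by gcongr
      _ = q ^ (ε * n) * S := by
          rw [← Real.rpow_add hq0]
          congr 2
          ring
  have d4 : q ^ ((n : ℝ) * (1 - ε)) * q ^ (ε * n) = q ^ n := by
    rw [← Real.rpow_add hq0, ← Real.rpow_natCast]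
    congr 1
    ring
  rw [← d4, mul_comm (q ^ (ε * n)) S] at d3
  exact le_of_mul_le_mul_right d3 (Real.rpow_pos_of_pos hq0 _)

end Pool.Agent.N742.FK
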