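import Pool.Agent.N742.FK.Stm

set_option autoImplicit false

/-! # FK/POLY: the one-variable step modulo an ideal -/

namespace Pool.Agent.N742.FK

open Polynomial

theorem poly : POLY := by
  classical
  intro K R _ _ _ _ I k P hdeg hP
  obtain ⟨Q, hQ⟩ : ∃ Q : (R ⧸ I)[X], Q = P.map (Ideal.Quotient.mk I) := ⟨_, rfl⟩
  suffices hQ0 : Q = 0 by
    intro i
    rw [← Ideal.Quotient.eq_zero_iff_mem, ← coeff_map, ← hQ, hQ0, coeff_zero]
  rcases subsingleton_or_nontrivial (R ⧸ I) with hs | hn
  · exact Subsingleton.elim _ _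
  obtain ⟨f, hf⟩ : ∃ f : K → (R ⧸ I)[X], f = fun c =>
    (X - C (Ideal.Quotient.mk I (algebraMap K R c))) ^ k := ⟨_, rfl⟩
  have hdvd : ∀ c : K, f c ∣ Q := by
    intro c
    obtain ⟨y, hy, z, hz, hyz⟩ := Submodule.mem_sup.1 (hP c)
    obtain ⟨u, rfl⟩ := Ideal.mem_span_singleton.1 hy
    have hz0 : z.map (Ideal.Quotient.mk I) = 0 := by
      ext i
      rw [coeff_map, coeff_zero, Ideal.Quotient.eq_zero_iff_mem]
      exact Ideal.mem_map_C_iff.1 hz i
    rw [hQ, ← hyz, Polynomial.map_add, hz0, add_zero, Polynomial.map_mul, Polynomial.map_pow,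
      Polynomial.map_sub, map_X, map_C, hf]
    exact dvd_mul_right _ _
  have hcop : (((Finset.univ : Finset K) : Set K)).Pairwise (Function.onFun IsCoprime f) := by
    intro c _ c' _ hcc
    show IsCoprime (f c) (f c')
    rw [hf]
    refine IsCoprime.pow (isCoprime_X_sub_C_of_isUnit_sub ?_)
    rw [← map_sub, ← map_sub]
    exact ((isUnit_iff_ne_zero.2 (sub_ne_zero.2 hcc)).map (algebraMap K R)).map
      (Ideal.Quotient.mk I)
  have hprod := Finset.prod_dvd_of_coprime hcop (fun c _ => hdvd c)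
  have hmon1 : ∀ c : K, (f c).Monic := by
    intro c
    rw [hf]
    exact (monic_X_sub_C _).pow k
  have hmon : (∏ c : K, f c).Monic := monic_prod_of_monic _ _ fun c _ => hmon1 c
  have hnat : (∏ c : K, f c).natDegree = Fintype.card K * k := by
    rw [natDegree_prod_of_monic _ _ fun c _ => hmon1 c]
    have h1 : ∀ c : K, (f c).natDegree = k := by
      intro c
      rw [hf]
      show ((X - C (Ideal.Quotient.mk I (algebraMap K R c))) ^ k).natDegree = k
      rw [(monic_X_sub_C _).natDegree_pow, natDegree_X_sub_C, mul_one]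
    simp only [h1, Finset.sum_const, Finset.card_univ, smul_eq_mul]
  obtain ⟨h, hh⟩ := hprod
  by_contra hne
  have hh0 : h ≠ 0 := by
    rintro rfl
    rw [mul_zero] at hh
    exact hne hh
  have h2 : Q.natDegree = Fintype.card K * k + h.natDegree := by
    rw [hh, hmon.natDegree_mul' hh0, hnat]
  have h3 : Q.natDegree ≤ P.natDegree := by
    rw [hQ]
    exact natDegree_map_le
  omega

end Pool.Agent.N742.FK
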