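import Mathlib
import Pool.Agent.N742.FK.Stm

/-!
# Schwartz-Zippel with multiplicities (helper887)
-/

set_option autoImplicit false

namespace Pool.Agent.N742.FK

open Polynomial

/-- the isomorphism as a homomorphism of rings -/
noncomputable def sz_phi (K : Type) [Field K] (n : ℕ) :
    MvPolynomial (Fin (n + 1)) K →+* (MvPolynomial (Fin n) K)[X] :=
  (MvPolynomial.finSuccEquiv K n).toAlgHom.toRingHom

lemma sz_phi_apply {K : Type} [Field K] {n : ℕ} (p : MvPolynomial (Fin (n + 1)) K) :
    sz_phi K n p = MvPolynomial.finSuccEquiv K n p := rfl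

lemma sz_map_le {K : Type} [Field K] {n : ℕ} (c : K) (w : Fin n → K) :
    (mId K (n + 1) (Fin.cons c w : Fin (n + 1) → K)).map (sz_phi K n) ≤
      Ideal.span {X - C (algebraMap K (MvPolynomial (Fin n) K) c)} ⊔ (mId K n w).map C := by
  unfold mId
  rw [Ideal.map_span, Ideal.span_le]
  rintro _ ⟨_, ⟨i, rfl⟩, rfl⟩
  refine Fin.cases ?_ (fun j => ?_) i
  · apply Ideal.mem_sup_left
    have h1 : sz_phi K n (MvPolynomial.X 0 - MvPolynomial.C ((Fin.cons c w : Fin (n + 1) → K) 0)) =
        X - C (algebraMap K (MvPolynomial (Fin n) K) c) := by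
      rw [sz_phi_apply, map_sub, MvPolynomial.finSuccEquiv_X_zero, Fin.cons_zero,
        ← MvPolynomial.algebraMap_eq, AlgEquiv.commutes]
      rfl
    rw [h1]
    exact Ideal.subset_span rfl
  · apply Ideal.mem_sup_right
    have h1 : sz_phi K n (MvPolynomial.X j.succ -
        MvPolynomial.C ((Fin.cons c w : Fin (n + 1) → K) j.succ)) =
        C (MvPolynomial.X j - MvPolynomial.C (w j)) := by
      rw [sz_phi_apply, map_sub, MvPolynomial.finSuccEquiv_X_succ, Fin.cons_succ,
        ← MvPolynomial.algebraMap_eq, AlgEquiv.commutes, map_sub]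
      rfl
    rw [h1]
    exact Ideal.mem_map_of_mem _ (Ideal.subset_span ⟨j, rfl⟩)

theorem sz (hP : POLY) : SZ := by
  intro K _ _ n
  induction n with
  | zero =>
    intro l G hG hd
    have hl : l ≠ 0 := by
      rintro rfl
      simp at hd
    have h1 := hG (fun i => i.elim0)
    have h2 : mId K 0 (fun i => i.elim0) = ⊥ := by
      unfold mId
      rw [Set.range_eq_empty, Ideal.span_empty]
    rw [h2, ← Ideal.zero_eq_bot, zero_pow hl] at h1
    exact h1
  | succ n ih =>
    intro l G hG hd
    by_contra hne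
    obtain ⟨q, hqd⟩ : ∃ q, q = Fintype.card K := ⟨_, rfl⟩
    rw [← hqd] at hd
    have hq : 0 < q := by
      rw [hqd]
      exact Fintype.card_pos
    obtain ⟨g, hgd⟩ : ∃ g, g = MvPolynomial.finSuccEquiv K n G := ⟨_, rfl⟩
    have hg : g ≠ 0 := by
      rw [hgd]
      exact (map_ne_zero_iff _ (MvPolynomial.finSuccEquiv K n).injective).2 hne
    obtain ⟨t, htd⟩ : ∃ t, t = g.natDegree := ⟨_, rfl⟩
    have ht : g.coeff t ≠ 0 := by
      rw [htd]
      exact leadingCoeff_ne_zero.2 hg
    have hdeg : (g.coeff t).totalDegree + t ≤ G.totalDegree := by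
      rw [hgd] at ht ⊢
      exact MvPolynomial.totalDegree_coeff_finSuccEquiv_add_le G t ht
    obtain ⟨k, hkd⟩ : ∃ k, k = t / q + 1 := ⟨_, rfl⟩
    have hk1 : t < q * k := by
      rw [hkd]
      exact Nat.lt_mul_div_succ t hq
    have hk2 : q * k ≤ t + q := by
      rw [hkd, mul_add, mul_one]
      exact Nat.add_le_add_right (Nat.mul_div_le t q) q
    have hqn : q * (n + 1) = q * n + q := by ring
    have hkl : k ≤ l := by
      have h1 : q * k < q * l := by omega
      exact (Nat.lt_of_mul_lt_mul_left h1).le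
    have key : ∀ (w' : Fin n → K) (c : K), g ∈
        Ideal.span {(X - C (algebraMap K (MvPolynomial (Fin n) K) c)) ^ k} ⊔
          (mId K n w' ^ (l - k)).map C := by
      intro w' c
      have h1 := hG (Fin.cons c w')
      have h4 : g ∈ ((mId K (n + 1) (Fin.cons c w' : Fin (n + 1) → K)).map (sz_phi K n)) ^ l := by
        rw [← Ideal.map_pow, hgd]
        exact Ideal.mem_map_of_mem (sz_phi K n) h1
      have h5 := Ideal.pow_right_mono (sz_map_le c w') l h4
      have h6 : l = k + (l - k) := by omega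
      rw [h6] at h5
      have h7 := Ideal.sup_pow_add_le_pow_sup_pow h5
      rw [Ideal.span_singleton_pow, ← Ideal.map_pow] at h7
      exact h7
    have hcoef : ∀ w', g.coeff t ∈ mId K n w' ^ (l - k) := fun w' =>
      hP K _ (mId K n w' ^ (l - k)) k g (by rw [← hqd, ← htd]; exact hk1) (key w') t
    have h6 : (g.coeff t).totalDegree + Fintype.card K * n < Fintype.card K * (l - k) := by
      rw [← hqd, Nat.mul_sub]
      omega
    exact ht (ih (l - k) (g.coeff t) hcoef h6)

end Pool.Agent.N742.FK
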